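import Pool.Agent.Lib.MP_24877f_gt_h61.Final

set_option autoImplicit false

/-!
# Three elements of order four, and three elements of order five, generate `Mod(S_g)`

Q2 of MP_24877f_gt, answered in full: the mapping class group of the closed orientable surface of
genus `g` is generated by three elements of order `4` for every `g ≥ 3`, and by three elements of
order `5` for every `g ≥ 4`.
-/

namespace Pool.Agent.Results.MP_24877f_gt.ThreeElements

open Pool.Agent.Lib.MP_24877f_gt_h61

theorem result :
    (∀ g : ℕ, 3 ≤ g → ∃ x y z : Out (SurfaceGroup g),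
      orderOf x = 4 ∧ orderOf y = 4 ∧ orderOf z = 4 ∧
        Subgroup.closure {x, y, z} = MCG g) ∧
    (∀ g : ℕ, 4 ≤ g → ∃ x y z : Out (SurfaceGroup g),
      orderOf x = 5 ∧ orderOf y = 5 ∧ orderOf z = 5 ∧
        Subgroup.closure {x, y, z} = MCG g) := by
  constructor
  · intro g hg
    obtain ⟨n, rfl⟩ := Nat.exists_eq_add_of_le hg
    exact three4 n
  · intro g hg
    rcases Nat.even_or_odd g with h | h
    · obtain ⟨m, rfl⟩ := h
      obtain ⟨n, rfl⟩ := Nat.exists_eq_add_of_le (show 2 ≤ m by omega)
      have e : 2 + n + (2 + n) = 4 + 2 * n := by ring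
      rw [e]
      exact three5e n
    · obtain ⟨m, rfl⟩ := h
      obtain ⟨n, rfl⟩ := Nat.exists_eq_add_of_le (show 2 ≤ m by omega)
      have e : 2 * (2 + n) + 1 = 5 + 2 * n := by ring
      rw [e]
      exact three5o n

end Pool.Agent.Results.MP_24877f_gt.ThreeElements
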